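import Pool.Agent.H561R2.NP.Gap

/-!
# Decomposable circuits on partial tables with a given domain
-/

namespace Pool.Agent.H213R3

open Finset Pool.Agent.H561R2.RO Pool.Agent.H561R2.NP

variable {Λ : Type} [DecidableEq Λ] {S : ℕ}

/-- The partial table which agrees with `f` on `D` and is undefined (`none`) elsewhere. -/
def cutTo (D : Finset Λ) (f : Λ → Bool) (v : Λ) : Option Bool :=
  if v ∈ D then some (f v) else none

/-- Reading only tables with domain `D`. -/
def domGate (D : Finset Λ) : Gate Λ (Option Bool) S → Gate Λ Bool S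
  | .leaf B φ => .leaf B fun a => φ (cutTo D a)
  | .and i j => .and i j
  | .or i j => .or i j
  | .dec v ch => .dec v fun c => ch (if v ∈ D then some c else none)

/-- Reading only tables with domain `D`. -/
def domCirc (D : Finset Λ) (C : Circ Λ (Option Bool) S) : Circ Λ Bool S where
  gate g := domGate D (C.gate g)
  scope := C.scope
  ok := by
    intro g
    have h := C.ok g
    cases hG : C.gate g with
    | leaf B φ =>
      rw [hG] at h
      refine ⟨h.1, fun a a' haa => h.2 _ _ fun v hv => ?_⟩
      unfold cutTo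
      rw [haa v hv]
    | and i j => rw [hG] at h; exact h
    | or i j => rw [hG] at h; exact h
    | dec v ch =>
      rw [hG] at h
      exact ⟨h.1, fun c => h.2 _⟩

theorem domCirc_leafLE {D : Finset Λ} {C : Circ Λ (Option Bool) S} {b : ℕ} (h : C.LeafLE b) :
    (domCirc D C).LeafLE b := by
  intro g B φ hg
  have hg' : domGate D (C.gate g) = .leaf B φ := hg
  cases hG : C.gate g with
  | leaf B' φ' =>
    rw [hG] at hg'
    simp only [domGate, Gate.leaf.injEq] at hg'
    obtain ⟨rfl, -⟩ := hg'
    exact h g _ _ hG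
  | and i j => rw [hG] at hg'; simp [domGate] at hg'
  | or i j => rw [hG] at hg'; simp [domGate] at hg'
  | dec v ch => rw [hG] at hg'; simp [domGate] at hg'

theorem domCirc_acc {D : Finset Λ} {C : Circ Λ (Option Bool) S} {a : Λ → Bool} {g : Fin S} :
    (domCirc D C).Acc a g ↔ C.Acc (cutTo D a) g := by
  constructor
  · intro h
    induction h with
    | @leaf g B φ h1 h2 =>
      have hg' : domGate D (C.gate g) = .leaf B φ := h1
      cases hG : C.gate g with
      | leaf B' φ' =>
        rw [hG] at hg'
        simp only [domGate, Gate.leaf.injEq] at hg'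
        obtain ⟨rfl, rfl⟩ := hg'
        exact .leaf hG h2
      | and i j => rw [hG] at hg'; simp [domGate] at hg'
      | or i j => rw [hG] at hg'; simp [domGate] at hg'
      | dec v ch => rw [hG] at hg'; simp [domGate] at hg'
    | @and g i j h1 _ _ i1 i2 =>
      have hg' : domGate D (C.gate g) = .and i j := h1
      cases hG : C.gate g with
      | leaf B' φ' => rw [hG] at hg'; simp [domGate] at hg'
      | and i' j' =>
        rw [hG] at hg'
        simp only [domGate, Gate.and.injEq] at hg'
        obtain ⟨rfl, rfl⟩ := hg'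
        exact .and hG i1 i2
      | or i j => rw [hG] at hg'; simp [domGate] at hg'
      | dec v ch => rw [hG] at hg'; simp [domGate] at hg'
    | @left g i j h1 _ i1 =>
      have hg' : domGate D (C.gate g) = .or i j := h1
      cases hG : C.gate g with
      | leaf B' φ' => rw [hG] at hg'; simp [domGate] at hg'
      | and i j => rw [hG] at hg'; simp [domGate] at hg'
      | or i' j' =>
        rw [hG] at hg'
        simp only [domGate, Gate.or.injEq] at hg'
        obtain ⟨rfl, rfl⟩ := hg'
        exact .left hG i1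
      | dec v ch => rw [hG] at hg'; simp [domGate] at hg'
    | @right g i j h1 _ i1 =>
      have hg' : domGate D (C.gate g) = .or i j := h1
      cases hG : C.gate g with
      | leaf B' φ' => rw [hG] at hg'; simp [domGate] at hg'
      | and i j => rw [hG] at hg'; simp [domGate] at hg'
      | or i' j' =>
        rw [hG] at hg'
        simp only [domGate, Gate.or.injEq] at hg'
        obtain ⟨rfl, rfl⟩ := hg'
        exact .right hG i1
      | dec v ch => rw [hG] at hg'; simp [domGate] at hg'
    | @dec g v ch h1 _ i1 =>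
      have hg' : domGate D (C.gate g) = .dec v ch := h1
      cases hG : C.gate g with
      | leaf B' φ' => rw [hG] at hg'; simp [domGate] at hg'
      | and i j => rw [hG] at hg'; simp [domGate] at hg'
      | or i j => rw [hG] at hg'; simp [domGate] at hg'
      | dec v' ch' =>
        rw [hG] at hg'
        simp only [domGate, Gate.dec.injEq] at hg'
        obtain ⟨rfl, rfl⟩ := hg'
        exact .dec hG i1
  · intro h
    induction h with
    | @leaf g B φ h1 h2 =>
      exact .leaf (B := B) (φ := fun a => φ (cutTo D a))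
        (show domGate D (C.gate g) = _ by rw [h1]; rfl) h2
    | @and g i j h1 _ _ i1 i2 =>
      exact .and (show domGate D (C.gate g) = .and i j by rw [h1]; rfl) i1 i2
    | @left g i j h1 _ i1 =>
      exact .left (show domGate D (C.gate g) = .or i j by rw [h1]; rfl) i1
    | @right g i j h1 _ i1 =>
      exact .right (show domGate D (C.gate g) = .or i j by rw [h1]; rfl) i1
    | @dec g v ch h1 _ i1 =>
      exact .dec (v := v) (ch := fun c => ch (if v ∈ D then some c else none))
        (show domGate D (C.gate g) = _ by rw [h1]; rfl) i1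

/-! ### A graph which also meets `D` in many points -/

variable {l g d : ℕ}

/-- The average number of points of `D` on a graph. -/
theorem sum_pull (D : Finset (Fin (l + g + d) → Bool)) :
    (∑ T : (Fin l → Bool) → Fin d → Bool, (pull (emb T) D).card) * 2 ^ d =
      Fintype.card ((Fin l → Bool) → Fin d → Bool) * D.card := by
  classical
  have h1 : ∀ T : (Fin l → Bool) → Fin d → Bool, (pull (emb T) D).card =
      ∑ u : Fin (l + g) → Bool, if Fin.append u (T (pre u)) ∈ D then 1 else 0 := by
    intro T
    unfold pull emb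
    rw [Finset.card_filter]
  simp_rw [h1]
  rw [Finset.sum_comm]
  have h2 : ∀ u : Fin (l + g) → Bool,
      (∑ T : (Fin l → Bool) → Fin d → Bool, if Fin.append u (T (pre u)) ∈ D then 1 else 0) * 2 ^ d =
        Fintype.card ((Fin l → Bool) → Fin d → Bool) *
          (univ.filter fun w : Fin d → Bool => Fin.append u w ∈ D).card := by
    intro u
    obtain ⟨F, hF⟩ : ∃ F : (Fin d → Bool) → ℕ, F = fun w =>
        if Fin.append u w ∈ D then 1 else 0 := ⟨_, rfl⟩
    have e := Fintype.sum_equiv (Equiv.funSplitAt (pre u : Fin l → Bool) (Fin d → Bool))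
      (fun T : (Fin l → Bool) → Fin d → Bool => F (T (pre u)))
      (fun p => F p.1) (by
        intro T
        simp [Equiv.funSplitAt])
    have e' : (∑ T : (Fin l → Bool) → Fin d → Bool,
        if Fin.append u (T (pre u)) ∈ D then 1 else 0) =
        ∑ T : (Fin l → Bool) → Fin d → Bool, F (T (pre u)) := by
      rw [hF]
    rw [e', e, Fintype.sum_prod_type]
    have hc := Fintype.card_congr (Equiv.funSplitAt (pre u : Fin l → Bool) (Fin d → Bool))
    rw [Fintype.card_prod] at hc
    rw [hc]
    have hd : Fintype.card (Fin d → Bool) = 2 ^ d := by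
      rw [Fintype.card_fun, Fintype.card_bool, Fintype.card_fin]
    rw [hd]
    simp only [Finset.sum_const, Finset.card_univ, smul_eq_mul]
    rw [← Finset.mul_sum, Finset.card_filter, hF]
    ring
  rw [Finset.sum_mul, Finset.sum_congr rfl fun u _ => h2 u, ← Finset.mul_sum]
  congr 1
  rw [← Finset.card_sigma]
  refine Finset.card_bij (fun p _ => Fin.append p.1 p.2) ?_ ?_ ?_
  · intro p hp
    rw [Finset.mem_sigma, Finset.mem_filter] at hp
    exact hp.2.2
  · rintro ⟨u, w⟩ _ ⟨u', w'⟩ _ h
    have h' : Fin.append u w = Fin.append u' w' := h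
    have h3 : u = u' := by
      funext i
      have := congrFun h' (Fin.castAdd d i)
      simpa using this
    have h4 : w = w' := by
      funext i
      have := congrFun h' (Fin.natAdd (l + g) i)
      simpa using this
    subst h3; subst h4; rfl
  · intro v hv
    refine ⟨⟨fun i => v (Fin.castAdd d i), fun j => v (Fin.natAdd (l + g) j)⟩, ?_, ?_⟩
    · rw [Finset.mem_sigma, Finset.mem_filter]
      refine ⟨Finset.mem_univ _, Finset.mem_univ _, ?_⟩
      rwa [show Fin.append (fun i => v (Fin.castAdd d i)) (fun j => v (Fin.natAdd (l + g) j)) = v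
        from Fin.append_castAdd_natAdd]
    · exact Fin.append_castAdd_natAdd

theorem exists_graph_dom {q a : ℕ} (hl : l = 2 * g + 3 + q)
    (B : Fin S → Finset (Fin (l + g + d) → Bool))
    (hB : ∀ i, (B i).card ≤ 2 ^ (l + g + d - 2 * g - 6)) (hS : S < 2 ^ 2 ^ a)
    (haq : l + g + 2 ^ a ≤ 2 ^ q) (hq : 3 ≤ g + q + d)
    (D : Finset (Fin (l + g + d) → Bool)) {x : ℕ} (hx : x * 2 ^ d ≤ D.card) :
    ∃ T : (Fin l → Bool) → Fin d → Bool, (∀ i, (pull (emb T) (B i)).card ≤ 2 ^ (l - g - 3)) ∧
      x ≤ (pull (emb T) D).card := by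
  classical
  by_contra hcon
  push Not at hcon
  obtain ⟨NT, hNT⟩ : ∃ NT, NT = Fintype.card ((Fin l → Bool) → Fin d → Bool) := ⟨_, rfl⟩
  have hposN : 0 < NT := by
    rw [hNT]
    exact Fintype.card_pos
  have hpos : (0 : ℝ) < NT := by exact_mod_cast hposN
  have hbad : ∀ i, ((univ.filter fun T : (Fin l → Bool) → Fin d → Bool =>
      2 ^ (l - g - 3) < (pull (emb T) (B i)).card).card : ℝ) * 2 ^ 2 ^ q ≤ NT := by
    intro i
    have h := chernoff (B i) (2 ^ (l - g - 3))
    rw [← hNT] at h
    have e1 : (((2 ^ (l - g - 3) : ℕ) : ℝ) / 2 ^ g) = ((2 ^ q : ℕ) : ℝ) := by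
      rw [div_eq_iff (by positivity)]
      push_cast
      rw [← pow_add]
      congr 1
      omega
    have e2 : Real.exp (Real.log 4 * ((2 ^ q : ℕ) : ℝ)) = 4 ^ 2 ^ q := by
      rw [Real.exp_mul, Real.exp_log (by norm_num), Real.rpow_natCast]
    have e3 : 3 * ((B i).card : ℝ) / 2 ^ (g + d) ≤ (2 ^ q : ℕ) * (3 / 8) := by
      rw [div_le_iff₀ (by positivity)]
      have h1 : ((B i).card : ℝ) ≤ 2 ^ (l + g + d - 2 * g - 6) := by exact_mod_cast hB i
      have h2 : (2 : ℝ) ^ (l + g + d - 2 * g - 6) * 8 = 2 ^ q * 2 ^ (g + d) := by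
        rw [show (8 : ℝ) = 2 ^ 3 by norm_num, ← pow_add, ← pow_add]
        congr 1
        omega
      push_cast
      nlinarith
    have e4 : Real.exp ((2 ^ q : ℕ) * (3 / 8)) ≤ 2 ^ 2 ^ q := by
      have h1 : Real.exp (3 / 8) ≤ 2 := by
        have h2 : (3 : ℝ) / 8 ≤ Real.log 2 := by
          have := Real.log_two_gt_d9
          linarith
        calc Real.exp (3 / 8) ≤ Real.exp (Real.log 2) := Real.exp_le_exp.2 h2
          _ = 2 := Real.exp_log (by norm_num)
      rw [Real.exp_nat_mul]
      exact pow_le_pow_left₀ (Real.exp_pos _).le h1 _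
    rw [e1, e2] at h
    have h3 : ((univ.filter fun T : (Fin l → Bool) → Fin d → Bool =>
        2 ^ (l - g - 3) < (pull (emb T) (B i)).card).card : ℝ) * 4 ^ 2 ^ q ≤ NT * 2 ^ 2 ^ q :=
      h.trans (mul_le_mul_of_nonneg_left ((Real.exp_le_exp.2 e3).trans e4) hpos.le)
    have h4 : (4 : ℝ) ^ 2 ^ q = 2 ^ 2 ^ q * 2 ^ 2 ^ q := by
      rw [← mul_pow]
      norm_num
    rw [h4, ← mul_assoc] at h3
    exact le_of_mul_le_mul_right h3 (by positivity)
  -- the bad graphs
  set Bad : Finset ((Fin l → Bool) → Fin d → Bool) := univ.biUnion fun i : Fin S =>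
      univ.filter fun T : (Fin l → Bool) → Fin d → Bool =>
        2 ^ (l - g - 3) < (pull (emb T) (B i)).card with hBad
  have hBadle : (Bad.card : ℝ) * 2 ^ 2 ^ q ≤ S * NT := by
    have h1 : (Bad.card : ℝ) ≤ ∑ i : Fin S, ((univ.filter fun T : (Fin l → Bool) → Fin d → Bool =>
        2 ^ (l - g - 3) < (pull (emb T) (B i)).card).card : ℝ) := by
      exact_mod_cast Finset.card_biUnion_le
    calc (Bad.card : ℝ) * 2 ^ 2 ^ q ≤
          (∑ i, ((univ.filter fun T : (Fin l → Bool) → Fin d → Bool =>
          2 ^ (l - g - 3) < (pull (emb T) (B i)).card).card : ℝ)) * 2 ^ 2 ^ q :=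
          mul_le_mul_of_nonneg_right h1 (by positivity)
      _ = ∑ i, ((univ.filter fun T : (Fin l → Bool) → Fin d → Bool =>
          2 ^ (l - g - 3) < (pull (emb T) (B i)).card).card : ℝ) * 2 ^ 2 ^ q := by
          rw [Finset.sum_mul]
      _ ≤ ∑ _i : Fin S, (NT : ℝ) := Finset.sum_le_sum fun i _ => hbad i
      _ = S * NT := by
          rw [Finset.sum_const, Finset.card_univ, Fintype.card_fin, nsmul_eq_mul]
  have hBadlt : Bad.card * 2 ^ (l + g) < NT := by
    have h1 : Bad.card * 2 ^ 2 ^ q ≤ S * NT := by exact_mod_cast hBadle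
    have h2 : 2 ^ (l + g) * 2 ^ 2 ^ a ≤ 2 ^ 2 ^ q := by
      rw [← pow_add]
      exact Nat.pow_le_pow_right (by norm_num) haq
    by_contra hge
    push Not at hge
    have h3 : NT * 2 ^ 2 ^ q ≤ S * NT * 2 ^ (l + g) := by
      calc NT * 2 ^ 2 ^ q ≤ Bad.card * 2 ^ (l + g) * 2 ^ 2 ^ q := Nat.mul_le_mul_right _ hge
        _ = Bad.card * 2 ^ 2 ^ q * 2 ^ (l + g) := by ring
        _ ≤ S * NT * 2 ^ (l + g) := Nat.mul_le_mul_right _ h1
    have h4 : S * NT * 2 ^ (l + g) < NT * 2 ^ 2 ^ q := by
      calc S * NT * 2 ^ (l + g) = NT * (2 ^ (l + g) * S) := by ring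
        _ < NT * (2 ^ (l + g) * 2 ^ 2 ^ a) :=
          Nat.mul_lt_mul_of_pos_left (Nat.mul_lt_mul_of_pos_left hS (by positivity)) hposN
        _ ≤ NT * 2 ^ 2 ^ q := Nat.mul_le_mul_left _ h2
    omega
  -- the average
  have hav := sum_pull D
  rw [← hNT] at hav
  have hav2 : NT * x ≤ ∑ T : (Fin l → Bool) → Fin d → Bool, (pull (emb T) D).card := by
    have h1 : NT * x * 2 ^ d ≤
        (∑ T : (Fin l → Bool) → Fin d → Bool, (pull (emb T) D).card) * 2 ^ d := by
      rw [hav, mul_assoc]
      exact Nat.mul_le_mul_left _ hx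
    exact Nat.le_of_mul_le_mul_right h1 (by positivity)
  have hx0 : 0 < x := by
    rcases Nat.eq_zero_or_pos x with rfl | h
    · exfalso
      have h1 : Bad = univ := by
        rw [Finset.eq_univ_iff_forall]
        intro T
        by_contra hT
        have h2 := hcon T (fun i => by
          by_contra hi
          push Not at hi
          exact hT (by
            rw [hBad, Finset.mem_biUnion]
            exact ⟨i, Finset.mem_univ _, Finset.mem_filter.2 ⟨Finset.mem_univ _, hi⟩⟩))
        omega
      rw [h1, Finset.card_univ, ← hNT] at hBadlt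
      have : NT ≤ NT * 2 ^ (l + g) := Nat.le_mul_of_pos_right _ (by positivity)
      omega
    · exact h
  have hpt : ∀ T : (Fin l → Bool) → Fin d → Bool, (pull (emb T) D).card + 1 ≤
      x + if T ∈ Bad then 2 ^ (l + g) else 0 := by
    intro T
    split_ifs with hT
    · have h1 : (pull (emb T) D).card ≤ 2 ^ (l + g) := by
        refine (Finset.card_le_univ _).trans ?_
        rw [Fintype.card_fun, Fintype.card_bool, Fintype.card_fin]
      omega
    · have h2 := hcon T (fun i => by
        by_contra hi
        push Not at hi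
        exact hT (by
          rw [hBad, Finset.mem_biUnion]
          exact ⟨i, Finset.mem_univ _, Finset.mem_filter.2 ⟨Finset.mem_univ _, hi⟩⟩))
      omega
  have hsum := Finset.sum_le_sum fun T (_ : T ∈ (univ : Finset ((Fin l → Bool) → Fin d → Bool))) =>
    hpt T
  rw [Finset.sum_add_distrib, Finset.sum_add_distrib, Finset.sum_const, Finset.sum_const,
    Finset.card_univ, ← hNT, Finset.sum_ite_mem, Finset.univ_inter, Finset.sum_const,
    smul_eq_mul, smul_eq_mul, smul_eq_mul, mul_one] at hsum
  omega

theorem small_arith (a g : ℕ) (ha : 1 ≤ a) : a + 4 * g + 5 + 2 ^ a ≤ 2 ^ (a + g + 2) := by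
  have h1 : ∀ t, 1 ≤ t → 4 * t + 2 ≤ 3 * 2 ^ t := by
    intro t ht
    induction t, ht using Nat.le_induction with
    | base => norm_num
    | succ t ht ih => rw [pow_succ]; omega
  have h2 := h1 (a + g) (by omega)
  have h3 : 2 ^ a ≤ 2 ^ (a + g) := Nat.pow_le_pow_right (by norm_num) (by omega)
  have h4 : 2 ^ (a + g + 2) = 4 * 2 ^ (a + g) := by rw [pow_add]; ring
  omega

open Classical in
/-- **The lower bound on partial tables with domain `D`.** -/
theorem conondet_dom {n k s₁ : ℕ} (M : CostM n) (hn : n ≤ 2 ^ k) (hgl : 3 * g + 6 ≤ l)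
    (hln : l + g ≤ n) (hs₁ : 2 ^ (l + 2 * k + 7) ≤ s₁)
    (C : Circ (Fin n → Bool) (Option Bool) S) (r : Fin S) (hleaf : C.LeafLE (2 ^ (n - 2 * g - 6)))
    (D : Finset (Fin n → Bool)) {x : ℕ} (hx : x * 2 ^ (n - (l + g)) ≤ D.card)
    (hno : ∀ f, M.cost f s₁ → ¬C.Acc (cutTo D f) r)
    (hfew : {T : (Fin n → Bool) → Option Bool |
      (∀ v, (T v).isSome = true ↔ v ∈ D) ∧ ¬C.Acc T r}.ncard +
      2 ^ (x - 2 ^ (l - g - 2)) ≤ 2 ^ x) :
    2 ^ 2 ^ (l - 3 * g - 5) ≤ S := by
  obtain ⟨d, rfl⟩ : ∃ d, n = l + g + d := ⟨n - (l + g), by omega⟩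
  rw [Nat.add_sub_cancel_left] at hx
  by_contra hS
  push Not at hS
  have ha := small_arith (l - 3 * g - 5) g (by omega)
  have e0 : l - 3 * g - 5 + g + 2 = l - 2 * g - 3 := by omega
  rw [e0] at ha
  obtain ⟨T, hT, hTD⟩ := exists_graph_dom (l := l) (g := g) (d := d) (q := l - 2 * g - 3) (by omega)
    (fun i => leafSet ((domCirc D C).gate i)) (by
      intro i
      cases hG : (domCirc D C).gate i with
      | leaf B φ => exact domCirc_leafLE hleaf _ _ _ hG
      | and i j => exact Nat.zero_le _
      | or i j => exact Nat.zero_le _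
      | dec v ch => exact Nat.zero_le _) hS (by omega) (by omega) D hx
  have key := natural (n := l + g) (k := k) (l := l) (s₁ := 2 ^ (l + 2 * k + 5)) (sub M)
    (by omega) (by omega) (by omega) le_rfl
    (restr (domCirc D C) (emb T) (kap T) fun v u h => kap_some h) r
    (by
      have e : 2 * l - (l + g) - 3 = l - g - 3 := by omega
      rw [e]
      refine restr_leafLE fun i B φ hG => ?_
      have := hT i
      rw [hG] at this
      exact this)
    (by
      obtain ⟨R, hR⟩ : ∃ R, R = {T : (Fin (l + g + d) → Bool) → Option Bool |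
        (∀ v, (T v).isSome = true ↔ v ∈ D) ∧ ¬C.Acc T r}.ncard := ⟨_, rfl⟩
      rw [← hR] at hfew
      have hM : Fintype.card (Fin (l + g) → Bool) = 2 ^ (l + g) := by
        rw [Fintype.card_fun, Fintype.card_bool, Fintype.card_fin]
      have hxM : (pull (emb T) D).card ≤ 2 ^ (l + g) := by
        rw [← hM]
        exact Finset.card_le_univ _
      -- the rejected functions
      have h1 : (univ.filter fun f : (Fin (l + g) → Bool) → Bool =>
          ¬(restr (domCirc D C) (emb T) (kap T) fun v u h => kap_some h).Acc f r).card ≤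
          2 ^ (2 ^ (l + g) - (pull (emb T) D).card) * R := by
        have hRc : R = (univ.filter fun T : (Fin (l + g + d) → Bool) → Option Bool =>
            (∀ v, (T v).isSome = true ↔ v ∈ D) ∧ ¬C.Acc T r).card := by
          rw [hR, Set.ncard_eq_toFinset_card']
          congr 1
          refine Finset.ext fun f => ?_
          simp
        rw [hRc]
        refine Finset.card_le_mul_card_image_of_maps_to
          (f := fun f => cutTo D (Pool.Agent.H561R2.NP.ext (kap T) f)) ?_ _ ?_
        · intro f hf
          rw [Finset.mem_filter] at hf ⊢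
          refine ⟨Finset.mem_univ _, fun v => ?_, fun h => hf.2 ?_⟩
          · unfold cutTo
            split_ifs with hv <;> simp [hv]
          · exact restr_acc.2 (domCirc_acc.2 h)
        · intro b _
          have hcard : Fintype.card ({u : Fin (l + g) → Bool // u ∉ pull (emb T) D} → Bool) =
              2 ^ (2 ^ (l + g) - (pull (emb T) D).card) := by
            rw [Fintype.card_fun, Fintype.card_bool, Fintype.card_subtype_compl, hM]
            congr 2
            exact Fintype.card_coe _
          rw [← hcard, ← Finset.card_univ]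
          refine Finset.card_le_card_of_injOn (fun f u => f u.1)
            (fun _ _ => Finset.mem_coe.2 (Finset.mem_univ _)) ?_
          intro f hf f' hf' hff
          rw [Finset.mem_coe, Finset.mem_filter] at hf hf'
          funext u
          by_cases hu : u ∈ pull (emb T) D
          · have h2 : emb T u ∈ D := by
              unfold pull at hu
              rw [Finset.mem_filter] at hu
              exact hu.2
            have h3 := congrFun (hf.2.trans hf'.2.symm) (emb T u)
            simp only [cutTo, if_pos h2, Option.some.injEq] at h3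
            unfold Pool.Agent.H561R2.NP.ext at h3
            rw [kap_emb] at h3
            exact h3
          · exact congrFun hff ⟨u, hu⟩
      have h2 := Finset.card_filter_add_card_filter_not
        (s := (univ : Finset ((Fin (l + g) → Bool) → Bool)))
        (fun f => (restr (domCirc D C) (emb T) (kap T) fun v u h => kap_some h).Acc f r)
      have hc : (univ : Finset ((Fin (l + g) → Bool) → Bool)).card = 2 ^ 2 ^ (l + g) := by
        rw [Finset.card_univ, Fintype.card_fun, Fintype.card_bool, Fintype.card_fun,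
          Fintype.card_bool, Fintype.card_fin]
      rw [hc] at h2
      have h3 : 2 ^ (2 ^ (l + g) - 2 ^ (l - g - 2)) ≤
          (univ.filter fun f : (Fin (l + g) → Bool) → Bool =>
            (restr (domCirc D C) (emb T) (kap T) fun v u h => kap_some h).Acc f r).card := by
        generalize 2 ^ (l + g) = Mx at hxM h1 h2 ⊢
        generalize 2 ^ (l - g - 2) = y at hfew ⊢
        generalize (pull (emb T) D).card = z at hTD hxM h1
        have h5 : 2 ^ (Mx - z) * R + 2 ^ (Mx - y) ≤ 2 ^ Mx := by
          calc 2 ^ (Mx - z) * R + 2 ^ (Mx - y) ≤ 2 ^ (Mx - x) * R + 2 ^ (Mx - x + (x - y)) := by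
                refine Nat.add_le_add (Nat.mul_le_mul_right _
                  (Nat.pow_le_pow_right (by norm_num) (by omega)))
                  (Nat.pow_le_pow_right (by norm_num) (by omega))
            _ = 2 ^ (Mx - x) * (R + 2 ^ (x - y)) := by rw [pow_add]; ring
            _ ≤ 2 ^ (Mx - x) * 2 ^ x := Nat.mul_le_mul_left _ hfew
            _ = 2 ^ Mx := by rw [← pow_add]; congr 1; omega
        omega
      have e : 2 * l - (l + g) - 2 = l - g - 2 := by omega
      rw [e]
      have h4 : 2 ^ (l - g - 2) ≤ 2 ^ (l + g) := Nat.pow_le_pow_right (by norm_num) (by omega)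
      calc 2 ^ 2 ^ (l + g) = 2 ^ 2 ^ (l - g - 2) * 2 ^ (2 ^ (l + g) - 2 ^ (l - g - 2)) := by
            rw [← pow_add]
            congr 1
            omega
        _ ≤ _ := Nat.mul_le_mul_left _ h3)
    (fun f hf h => hno _ (M.mono (cost_ext (by omega) M T hf) hs₁)
      (domCirc_acc.1 (restr_acc.1 h)))
  have e : 4 * l - 3 * (l + g) - 5 = l - 3 * g - 5 := by omega
  rw [e] at key
  omega

end Pool.Agent.H213R3
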