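import Pool.Agent.H213R3.Dom
import Pool.Agent.H561R2.RO.BPLB
import Pool.Agent.H589R2.Circ

/-!
# Certifying that partial tables with a given domain are hard: branching programs and circuits
-/

namespace Pool.Agent.H213R3

open Finset Pool.Agent.H561R2.RO Pool.Agent.H561R2.NP Pool.Agent.H589R2

/-- The number of tables with domain `D` which agree with one of few functions. -/
theorem ncard_tables {n K : ℕ} (D : Finset (Fin n → Bool)) (E : Finset ((Fin n → Bool) → Bool))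
    (hE : E.card ≤ K) (P : ((Fin n → Bool) → Option Bool) → Prop)
    (hP : ∀ T, P T → ∃ f ∈ E, ∀ v b, T v = some b → f v = b)
    (A : ((Fin n → Bool) → Option Bool) → Prop) :
    {T : (Fin n → Bool) → Option Bool | (∀ v, (T v).isSome = true ↔ v ∈ D) ∧ ¬A T}.ncard ≤
      {T : (Fin n → Bool) → Option Bool |
        (∀ v, (T v).isSome = true ↔ v ∈ D) ∧ ¬P T ∧ ¬A T}.ncard + K := by
  classical
  have h1 : {T : (Fin n → Bool) → Option Bool | (∀ v, (T v).isSome = true ↔ v ∈ D) ∧ ¬A T} ⊆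
      {T : (Fin n → Bool) → Option Bool |
        (∀ v, (T v).isSome = true ↔ v ∈ D) ∧ ¬P T ∧ ¬A T} ∪ ((E.image (cutTo D) : Finset _) :
          Set ((Fin n → Bool) → Option Bool)) := by
    intro T hT
    by_cases hPT : P T
    · right
      obtain ⟨f, hf, hfT⟩ := hP T hPT
      rw [Finset.mem_coe, Finset.mem_image]
      refine ⟨f, hf, ?_⟩
      funext v
      unfold cutTo
      have h2 := hT.1 v
      cases hv : T v with
      | none =>
        rw [hv] at h2
        rw [if_neg]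
        intro h3
        simpa using h2.2 h3
      | some b =>
        rw [hv] at h2
        rw [if_pos (h2.1 rfl), hfT v b hv]
    · left
      exact ⟨hT.1, hPT, hT.2⟩
  refine (Set.ncard_le_ncard h1 (Set.toFinite _)).trans ((Set.ncard_union_le _ _).trans ?_)
  refine Nat.add_le_add_left ?_ _
  rw [Set.ncard_coe_finset]
  exact Finset.card_image_le.trans hE

theorem isSome_cutTo {n : ℕ} (D : Finset (Fin n → Bool)) (f : (Fin n → Bool) → Bool)
    (v : Fin n → Bool) : (cutTo D f v).isSome = true ↔ v ∈ D := by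
  unfold cutTo
  split_ifs with h <;> simp [h]

theorem of_cutTo {n : ℕ} {D : Finset (Fin n → Bool)} {f : (Fin n → Bool) → Bool}
    {v : Fin n → Bool} {b : Bool} (h : cutTo D f v = some b) : f v = b := by
  unfold cutTo at h
  split_ifs at h with h1
  exact Option.some.inj h

theorem conondet_bp {n k w l g s₁ s₂ S x : ℕ} (hn : n ≤ 2 ^ k) (hg : 3 * g + 6 ≤ l)
    (hl : l + g ≤ n) (hs₁ : 2 ^ (l + 2 * k + 7) + 4 ≤ s₁) (hw : n + s₂ ≤ 2 ^ w)
    (D : Finset (Fin n → Bool)) (hx : x * 2 ^ (n - (l + g)) ≤ D.card)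
    (C : Circ (Fin n → Bool) (Option Bool) S) (out : Fin S) (hleaf : C.LeafLE (2 ^ (n - 2 * g - 6)))
    (hrej : ∀ T : (Fin n → Bool) → Option Bool, (∀ v, (T v).isSome = true ↔ v ∈ D) →
      PartialMBPSP n s₁ T → ¬C.Acc T out)
    (hfew : {T : (Fin n → Bool) → Option Bool | (∀ v, (T v).isSome = true ↔ v ∈ D) ∧
        ¬PartialMBPSP n s₂ T ∧ ¬C.Acc T out}.ncard +
      2 ^ (3 * w * (s₂ + 1)) + 2 ^ (x - 2 ^ (l - g - 2)) ≤ 2 ^ x) :
    2 ^ 2 ^ (l - 3 * g - 5) ≤ S := by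
  refine conondet_dom (bpCost n) (s₁ := 2 ^ (l + 2 * k + 7)) hn hg hl le_rfl C out hleaf D hx
    (fun f hf => ?_) ?_
  · obtain ⟨P, hP, hP'⟩ := BCost.exists_BP (n := n) (by omega) hf
    refine hrej _ (isSome_cutTo D f) ⟨by omega, P, hP.trans hs₁, fun v b hvb => ?_⟩
    rw [hP']
    exact of_cutTo hvb
  · refine le_trans (Nat.add_le_add_right ?_ _) hfew
    refine ncard_tables D (smallB n s₂) (smallB_card n s₂ w hw) (PartialMBPSP n s₂) ?_ _
    rintro T ⟨_, B, hB, hBT⟩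
    refine ⟨B.eval, ?_, hBT⟩
    simp only [smallB, Finset.mem_filter, Finset.mem_univ, true_and]
    exact ⟨B, hB, rfl⟩

/-! ### Circuits -/

/-- Circuit size as a cost measure. -/
def circCost (n : ℕ) : CostM n where
  cost f s := 0 < n → Cost (∅ : Set (Fn n)) {f} s
  mono := fun h hst hn => (h hn).mono (le_refl _) (le_refl _) hst
  const := fun b hn => by
    cases b with
    | false => exact Cost.false' hn
    | true => simpa using (Cost.false' hn).neg
  var := fun i hn => by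
    intro s p _
    refine ⟨s, by omega, p, le_refl _, ?_⟩
    rintro _ rfl
    have h := avail_co p i.2
    have e : co n i.1 = fun z : Fin n → Bool => z i := by
      funext z
      simp [co, i.2]
    rwa [e] at h
  xor := fun hf hg hn => ((hf hn).xor' (hg hn)).mono (le_refl _) (le_refl _) (by omega)
  ite := fun {e f g r s t} he hf hg hn => by
    have h1 := (he hn).and' (hf hn)
    have h2 := (he hn).neg.and' (hg hn)
    have h3 := (h1.neg.and' h2.neg).neg
    have e1 : (fun z => if e z = true then f z else g z) =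
        (fun z => !((!(e z && f z)) && (!(!e z && g z)))) := by
      funext z
      cases e z <;> cases f z <;> cases g z <;> rfl
    rw [e1]
    exact h3.mono (le_refl _) (le_refl _) (by omega)

theorem exists_circuit {n s : ℕ} {f : Fn n} (h : Cost (∅ : Set (Fn n)) {f} s) :
    ∃ C : Circuit n, C.size ≤ s ∧ C.eval = f := by
  obtain ⟨s', hs', p', -, h2⟩ := h 0 Gates.nil (Set.empty_subset _)
  obtain ⟨l, hl⟩ := h2 rfl
  exact ⟨⟨s', p', l⟩, by simpa using hs', funext fun x => (hl x).symm⟩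

theorem conondet_circ {n k w l g s₁ s₂ S x : ℕ} (hn : n ≤ 2 ^ k) (hg : 3 * g + 6 ≤ l)
    (hl : l + g ≤ n) (hs₁ : 2 ^ (l + 2 * k + 7) ≤ s₁) (hw : n + s₂ + 1 ≤ 2 ^ w)
    (D : Finset (Fin n → Bool)) (hx : x * 2 ^ (n - (l + g)) ≤ D.card)
    (C : Circ (Fin n → Bool) (Option Bool) S) (out : Fin S) (hleaf : C.LeafLE (2 ^ (n - 2 * g - 6)))
    (hrej : ∀ T : (Fin n → Bool) → Option Bool, (∀ v, (T v).isSome = true ↔ v ∈ D) →
      PartialMCSP n s₁ T → ¬C.Acc T out)
    (hfew : {T : (Fin n → Bool) → Option Bool | (∀ v, (T v).isSome = true ↔ v ∈ D) ∧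
        ¬PartialMCSP n s₂ T ∧ ¬C.Acc T out}.ncard +
      2 ^ ((2 * w + 3) * (s₂ + 1)) + 2 ^ (x - 2 ^ (l - g - 2)) ≤ 2 ^ x) :
    2 ^ 2 ^ (l - 3 * g - 5) ≤ S := by
  refine conondet_dom (circCost n) (s₁ := 2 ^ (l + 2 * k + 7)) hn hg hl le_rfl C out hleaf D hx
    (fun f hf => ?_) ?_
  · obtain ⟨P, hP, hP'⟩ := exists_circuit (hf (by omega))
    refine hrej _ (isSome_cutTo D f) ⟨P, hP.trans hs₁, fun v b hvb => ?_⟩
    rw [hP']
    exact of_cutTo hvb
  · refine le_trans (Nat.add_le_add_right ?_ _) hfew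
    refine ncard_tables D (smallF n s₂) (smallF_card n s₂ w hw) (PartialMCSP n s₂) ?_ _
    rintro T ⟨B, hB, hBT⟩
    refine ⟨B.eval, ?_, hBT⟩
    simp only [smallF, Finset.mem_filter, Finset.mem_univ, true_and]
    exact ⟨B, hB, rfl⟩

/-- The nondeterministic lower bound for circuit size. -/
theorem circ_lower_bound {n k m g s₁ s₂ S : ℕ} (hn : n ≤ 2 ^ k)
    (hm : 15 * k + 9 * g + 79 ≤ m) (hmn : m + 32 * k + 16 * g + 64 ≤ n)
    (hs₁ : 2 ^ (m + 4 * k + 2 * g + 20) ≤ s₁) (hs₂ : s₂ ≤ 2 ^ (m + 4 * k + 3 * g + 20))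
    (C : Circ (Fin n → Bool) Bool S) (r : Fin S)
    (hleaf : C.LeafLE (2 ^ (n - (10 * k + 6 * g + 52))))
    (hyes : ∀ f : Fn n, (∃ B : Circuit n, B.size ≤ s₁ ∧ B.eval = f) → C.Acc f r)
    (hno : ∀ f : Fn n, C.Acc f r → ∃ B : Circuit n, B.size ≤ s₂ ∧ B.eval = f) :
    2 ^ 2 ^ (m - (15 * k + 9 * g + 79)) ≤ S := by
  classical
  refine (circCost n).lower_bound (s₁ := 2 ^ (m + 4 * k + 2 * g + 20))
    (K := (2 * n + 3) * (2 ^ (m + 4 * k + 3 * g + 20) + 1)) hn hm hmn le_rfl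
    C r hleaf ?_ ?_ fun f hf => hyes f ?_
  · have h1 : (univ.filter fun f => C.Acc f r) ⊆ smallF n (2 ^ (m + 4 * k + 3 * g + 20)) := by
      intro f hf
      rw [Finset.mem_filter] at hf
      obtain ⟨B, hB, hBf⟩ := hno f hf.2
      simp only [smallF, Finset.mem_filter, Finset.mem_univ, true_and]
      exact ⟨B, hB.trans hs₂, hBf⟩
    refine (Finset.card_le_card h1).trans (smallF_card n _ n ?_)
    have h2 : 2 ^ n = 4 * 2 ^ (n - 2) := by
      rw [show (4 : ℕ) = 2 ^ 2 by norm_num, ← pow_add]; congr 1; omega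
    have h3 : n - 2 < 2 ^ (n - 2) := Nat.lt_two_pow_self
    have h4 : 2 ^ (m + 4 * k + 3 * g + 20) ≤ 2 ^ (n - 2) :=
      Nat.pow_le_pow_right (by norm_num) (by omega)
    have h5 : 2 ^ 2 ≤ 2 ^ (n - 2) := Nat.pow_le_pow_right (by norm_num) (by omega)
    omega
  · have h1 : 5 * (2 ^ (m + 4 * k + 3 * g + 20) + 1) ≤ 8 * 2 ^ (m + 4 * k + 3 * g + 20) := by
      have : 2 ^ 2 ≤ 2 ^ (m + 4 * k + 3 * g + 20) := Nat.pow_le_pow_right (by norm_num) (by omega)
      omega
    have h2 : 1 ≤ 2 ^ k := Nat.one_le_two_pow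
    calc (2 * n + 3) * (2 ^ (m + 4 * k + 3 * g + 20) + 1)
        ≤ (2 ^ k * 5) * (2 ^ (m + 4 * k + 3 * g + 20) + 1) :=
          Nat.mul_le_mul_right _ (by omega)
      _ = 2 ^ k * (5 * (2 ^ (m + 4 * k + 3 * g + 20) + 1)) := by ring
      _ ≤ 2 ^ k * (8 * 2 ^ (m + 4 * k + 3 * g + 20)) := Nat.mul_le_mul_left _ h1
      _ = 2 ^ (m + 5 * k + 3 * g + 23) := by
          rw [show (8 : ℕ) = 2 ^ 3 by norm_num, ← pow_add, ← pow_add]
          congr 1
          ring
      _ ≤ _ := le_rfl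
  · obtain ⟨P, hP, hP'⟩ := exists_circuit (hf (by omega))
    exact ⟨P, hP.trans hs₁, hP'⟩

end Pool.Agent.H213R3
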