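import Pool.Agent.H213R3.DomGap
import Pool.Agent.H532R2.MC.Final

/-!
# Decomposable circuits and the Minimum Circuit Size Problem
-/

namespace Pool.Agent.H213R3

open Finset Pool.Agent.H561R2.RO Pool.Agent.H561R2.NP Pool.Agent.H532R2.MC

/-- De Morgan circuit size as a cost measure. -/
def mcCost (n : ℕ) : CostM n where
  cost f s := 0 < n → Cst (vars n) f s
  mono := fun h hst hn => (h hn).mono subset_rfl hst
  const := fun b hn => cst_const hn b
  var := fun i _ => (Cst.of_mem (vars_mem i)).mono subset_rfl (Nat.zero_le 1)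
  xor := fun hf hg hn => ((hf hn).xor (hg hn)).mono subset_rfl (by omega)
  ite := fun {e f g r s t} he hf hg hn => by
    refine ((((he hn).and (hf hn)).or ((he hn).not.and (hg hn))).congr fun z => ?_).mono
      subset_rfl (by omega)
    cases e z <;> cases f z <;> cases g z <;> rfl

theorem mcsp_table {n s : ℕ} (hn : 0 < n) (f : BF n) :
    MCSP n (table n f) s ↔ Cst (vars n) f s := by
  unfold MCSP
  rw [← sizeLE_iff]
  constructor
  · rintro ⟨_, g, h1, h2⟩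
    rw [table_injective _ h1]
    exact h2
  · intro h
    exact ⟨hn, f, rfl, h⟩

theorem small_le {n t w : ℕ} (hw : n + t + 1 ≤ 2 ^ w) :
    (small n t).card ≤ 2 ^ ((2 * w + 3) * (t + 1)) := by
  have h1 := small_card n t
  have h2 : (small n t).card ≤ t.factorial * (small n t).card :=
    Nat.le_mul_of_pos_left _ (Nat.factorial_pos t)
  refine h2.trans (h1.trans ?_)
  have h3 : 8 * (n + t) ^ 2 ≤ 2 ^ (2 * w + 3) := by
    calc 8 * (n + t) ^ 2 ≤ 8 * (2 ^ w) ^ 2 := by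
          gcongr
          omega
      _ = 2 ^ (2 * w + 3) := by rw [← pow_mul, pow_add]; ring
  calc (t + 1) * ((8 * (n + t) ^ 2) ^ t * (2 * (n + t)))
      ≤ 2 ^ w * ((2 ^ (2 * w + 3)) ^ t * (2 * 2 ^ w)) := by
        gcongr
        · omega
        · omega
    _ = 2 ^ ((2 * w + 3) * t + (2 * w + 1)) := by
        rw [← pow_mul, pow_add, pow_add]
        ring
    _ ≤ 2 ^ ((2 * w + 3) * (t + 1)) := by
        refine Nat.pow_le_pow_right (by norm_num) ?_
        ring_nf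
        omega

theorem mcsp_lower_bound {n k m g s₁ s₂ S : ℕ} (hn : n ≤ 2 ^ k)
    (hm : 15 * k + 9 * g + 79 ≤ m) (hmn : m + 32 * k + 16 * g + 64 ≤ n)
    (hs₁ : 2 ^ (m + 4 * k + 2 * g + 20) ≤ s₁) (hs₂ : s₂ ≤ 2 ^ (m + 4 * k + 3 * g + 20))
    (C : Circ (Fin n → Bool) Bool S) (r : Fin S)
    (hleaf : C.LeafLE (2 ^ (n - (10 * k + 6 * g + 52))))
    (hyes : ∀ f : BF n, MCSP n (table n f) s₁ → C.Acc f r)
    (hno : ∀ f : BF n, ¬MCSP n (table n f) s₂ → ¬C.Acc f r) :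
    2 ^ 2 ^ (m - (15 * k + 9 * g + 79)) ≤ S := by
  classical
  have hn0 : 0 < n := by omega
  refine (mcCost n).lower_bound (s₁ := 2 ^ (m + 4 * k + 2 * g + 20))
    (K := (2 * n + 3) * (2 ^ (m + 4 * k + 3 * g + 20) + 1)) hn hm hmn le_rfl
    C r hleaf ?_ ?_ fun f hf => hyes f ((mcsp_table hn0 f).2 ((hf hn0).mono subset_rfl hs₁))
  · have h1 : (univ.filter fun f => C.Acc f r) ⊆ small n (2 ^ (m + 4 * k + 3 * g + 20)) := by
      intro f hf
      rw [Finset.mem_filter] at hf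
      unfold small
      rw [Finset.mem_filter]
      refine ⟨Finset.mem_univ _, ?_⟩
      have h2 : MCSP n (table n f) s₂ := by
        by_contra hcon
        exact hno f hcon hf.2
      rw [sizeLE_iff]
      exact ((mcsp_table hn0 f).1 h2).mono subset_rfl hs₂
    refine (Finset.card_le_card h1).trans (small_le ?_)
    have h2 : 2 ^ n = 4 * 2 ^ (n - 2) := by
      rw [show (4 : ℕ) = 2 ^ 2 by norm_num, ← pow_add]; congr 1; omega
    have h3 : n - 2 < 2 ^ (n - 2) := Nat.lt_two_pow_self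
    have h4 : 2 ^ (m + 4 * k + 3 * g + 20) ≤ 2 ^ (n - 2) :=
      Nat.pow_le_pow_right (by norm_num) (by omega)
    have h5 : 2 ^ 2 ≤ 2 ^ (n - 2) := Nat.pow_le_pow_right (by norm_num) (by omega)
    omega
  · have h1 : 5 * (2 ^ (m + 4 * k + 3 * g + 20) + 1) ≤ 8 * 2 ^ (m + 4 * k + 3 * g + 20) := by
      have : 2 ^ 2 ≤ 2 ^ (m + 4 * k + 3 * g + 20) := Nat.pow_le_pow_right (by norm_num) (by omega)
      omega
    have h2 : 1 ≤ 2 ^ k := Nat.one_le_two_pow
    calc (2 * n + 3) * (2 ^ (m + 4 * k + 3 * g + 20) + 1)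
        ≤ (2 ^ k * 5) * (2 ^ (m + 4 * k + 3 * g + 20) + 1) :=
          Nat.mul_le_mul_right _ (by omega)
      _ = 2 ^ k * (5 * (2 ^ (m + 4 * k + 3 * g + 20) + 1)) := by ring
      _ ≤ 2 ^ k * (8 * 2 ^ (m + 4 * k + 3 * g + 20)) := Nat.mul_le_mul_left _ h1
      _ = 2 ^ (m + 5 * k + 3 * g + 23) := by
          rw [show (8 : ℕ) = 2 ^ 3 by norm_num, ← pow_add, ← pow_add]
          congr 1
          ring
      _ ≤ _ := le_rfl

theorem mcsp_conondet {n k w l g s₁ s₂ S : ℕ} (hn : n ≤ 2 ^ k) (hg : 3 * g + 6 ≤ l)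
    (hl : l + g ≤ n) (hs₁ : 2 ^ (l + 2 * k + 7) ≤ s₁) (hw : n + s₂ + 1 ≤ 2 ^ w)
    (C : Circ (Fin n → Bool) Bool S) (r : Fin S) (hleaf : C.LeafLE (2 ^ (n - 2 * g - 6)))
    (hrej : ∀ f : BF n, MCSP n (table n f) s₁ → ¬C.Acc f r)
    (hfew : {f : BF n | ¬MCSP n (table n f) s₂ ∧ ¬C.Acc f r}.ncard +
      2 ^ ((2 * w + 3) * (s₂ + 1)) + 2 ^ (2 ^ (l + g) - 2 ^ (l - g - 2)) ≤ 2 ^ 2 ^ (l + g)) :
    2 ^ 2 ^ (l - 3 * g - 5) ≤ S := by
  classical
  have hn0 : 0 < n := by omega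
  have hcost : ∀ (f : BF n) (s : ℕ), (mcCost n).cost f s ↔ MCSP n (table n f) s := by
    intro f s
    rw [mcsp_table hn0]
    exact ⟨fun h => h hn0, fun h _ => h⟩
  refine conondet_gap (mcCost n) (s₂ := s₂) hn hg hl hs₁
    (?_ : _ ≤ 2 ^ ((2 * w + 3) * (s₂ + 1))) C r
    hleaf (fun f hf => hrej f ((hcost f s₁).1 hf)) ?_
  · refine le_trans (Finset.card_le_card ?_) (small_le (n := n) (t := s₂) hw)
    intro f hf
    rw [Finset.mem_filter] at hf
    unfold small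
    rw [Finset.mem_filter, sizeLE_iff]
    exact ⟨Finset.mem_univ _, hf.2 hn0⟩
  · simp only [hcost]
    exact hfew

end Pool.Agent.H213R3
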