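import Pool.Agent.H632R2.Border3
import Pool.Agent.H546R2.SM.B8

/-!
# Approximative complexity of the permanent: a lower bound of order `N ^ 2 * log N`

The construction is the one of `Pool.Agent.H546R2.SM` (exact complexity), combined with the
specialisation argument of `Pool.Agent.H632R2.Border`.
-/

set_option autoImplicit false
set_option linter.unusedSectionVars false

open Module MvPolynomial Finset

namespace Pool.Agent.H213R3.PB

open Pool.Agent.H546R2.SL Pool.Agent.H546R2.SM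

/-- the main inequality, for limits of computed polynomials -/
theorem main_ineq_border (K : Type*) [Field K] [IsAlgClosed K] [CharZero K]
    {F : Type*} [Field F] (O : ValuationSubring F) (φ : O →+* K) (ψ : K →+* O)
    (hψ : ∀ c, φ (ψ c) = c) {q h k p : ℕ}
    (hk : 2 ≤ k) (N : ℕ)
    (hN : N = q * (4 * k + h) + h * (2 * k + h + 2) + (3 * k + h + 1) + p)
    (s : ℕ) (M : Finset ℕ) (g : ℕ → MvPolynomial (Fin N × Fin N) F) (hg : NSLP s M g)
    (G : MvPolynomial (Fin N × Fin N) O) (hG : ∃ i < s, map O.subtype G = g i)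
    (hf : map φ G = perN K N) :
    (k - 1) ^ (q * (q * (h * k))) ≤ 2 ^ (3 * M.card) := by
  classical
  obtain ⟨zC, hzC⟩ := exists_zeta K (2 * k + h) (by omega)
  obtain ⟨zU, hzU⟩ := exists_zeta K (k + 1) (by omega)
  obtain ⟨zm, hzm⟩ := exists_zeta K (2 * k) (by omega)
  obtain ⟨zV, hzV⟩ := exists_zeta K (k + h + 1) (by omega)
  obtain ⟨t, ht, hzero⟩ := exists_t (q := q) (h := h) (k := k) (C₀ := 2 * k + h) K hk rfl
  set FMA := FM K q h k p t zC zU zm zV (Aent K q h k t) with hFMA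
  let er : Fin N ≃ FR q h (2 * k) (2 * k + h) k (k + h) p :=
    Fintype.equivOfCardEq (by rw [card_FR, Fintype.card_fin, hN]; ring)
  let ec : Fin N ≃ FC q h (2 * k) (2 * k + h) k (k + h) p :=
    Fintype.equivOfCardEq (by rw [card_FC, Fintype.card_fin, hN]; ring)
  have hCmem : ∀ x : K, C x ∈ restrictTotalDegree (Idx q h k) K 1 := by
    intro x
    rw [mem_restrictTotalDegree, totalDegree_C]
    exact Nat.zero_le _
  have hdeg : ∀ i j, FMA i j ∈ restrictTotalDegree (Idx q h k) K 1 := by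
    intro i j
    rw [hFMA]
    unfold FM
    apply fin_mem (W := (restrictTotalDegree (Idx q h k) K 1 : Set (MvPolynomial (Idx q h k) K)))
    · exact Submodule.zero_mem _
    · exact hCmem 1
    · exact fun _ => hCmem _
    · exact fun _ => hCmem _
    · exact fun _ => hCmem _
    · exact fun _ => hCmem _
    · intro b b' r c
      have := ((zent_homog (K := K) (h := h) b b' r c).C_mul (t ^ ex c r 0)).totalDegree_le
      exact (mem_restrictTotalDegree _ _ _).mpr this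
    · exact fun _ _ => hCmem _
    · exact fun _ _ => hCmem _
    · exact fun _ => hCmem _
  obtain ⟨W, hW0, hWgood, hWd⟩ := Pool.Agent.H632R2.Border.gradient_good_border
    (O := O) (φ := φ) (j := ψ) hψ
    (fun x : Fin N × Fin N => FMA (er x.1) (ec x.2))
    (fun v => hdeg _ _) s M g hg G (perN K N) hG hf
  have hyW : ∀ v, Yf K q h k (2 * k + h) t v ∈ W := by
    rintro ⟨b₀, b₀', r₀, c₀⟩
    have h1 := hWd (er.symm (posR b₀' c₀), ec.symm (posC b₀ r₀))
    rw [aeval_pderiv, Equiv.apply_symm_apply, Equiv.apply_symm_apply] at h1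
    have h2 := per_add FMA (FM K q h k p t zC zU zm zV (fun b b' r c => Aent K q h k t b b' r c +
        if b' = b₀' ∧ c = c₀ then (if b = b₀ ∧ r = r₀ then 1 else 0) else 0))
      (posR b₀' c₀) (posC b₀ r₀) (fun i j => fin_add _ _ _ _ _ _ _ _ _ b₀ b₀' r₀ c₀
        (fun _ _ _ _ => rfl) i j)
    rw [← h2] at h1
    have h3 := W.smul_mem (t ^ ex c₀ r₀ 0) h1
    rw [smul_eq_C_mul, hFMA, FM_diff ht (by omega) zC zU zm zV hzC hzU hzm hzV b₀ b₀' r₀ c₀,
      ← smul_eq_C_mul] at h3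
    have hne := cst_ne_zero (K := K) q h (2 * k) (2 * k + h) k (k + h) p
    have h4 := W.smul_mem (cst K q h (2 * k) (2 * k + h) k (k + h) p (-1) (-1) (-1) (-1))⁻¹ h3
    rwa [smul_smul, inv_mul_cancel₀ hne, one_smul] at h4
  have hcardι : Fintype.card (Idx q h k) = q * (q * (h * k)) := by
    simp [Idx, Fintype.card_prod]
  rw [← hcardι]
  exact degree_bound (fun v => Yf K q h k (2 * k + h) t v) (k - 1) (by omega)
    (fun v => Yf_homog t v) hzero (3 * M.card) W hW0 hWgood hyW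


/-! ### The numbers -/

theorem numbers {N : ℕ} (hN : 2 ^ 18 ≤ N) : ∃ a p : ℕ, 2 ≤ a ∧
    N = a * (4 * a + a) + a * (2 * a + a + 2) + (3 * a + a + 1) + p ∧
    ∀ m : ℕ, (a - 1) ^ (a * (a * (a * a))) ≤ 2 ^ (3 * m) → N ^ 2 * Nat.log 2 N ≤ 1152 * m := by
  obtain ⟨b, hb⟩ : ∃ b, b = Nat.sqrt (N / 8) := ⟨_, rfl⟩
  have hb1 : b * b ≤ N / 8 := by rw [hb]; exact Nat.sqrt_le _
  have hb2 : N / 8 < (b + 1) * (b + 1) := by rw [hb]; exact Nat.lt_succ_sqrt _
  have hb3 : 181 ≤ b := by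
    by_contra h
    push Not at h
    have : (b + 1) * (b + 1) ≤ 181 * 181 := Nat.mul_le_mul (by omega) (by omega)
    omega
  obtain ⟨a, rfl⟩ : ∃ a, b = a + 1 := ⟨b - 1, by omega⟩
  have hN1 : 8 * ((a + 1) * (a + 1)) ≤ N := by omega
  have hN2 : N < 8 * ((a + 2) * (a + 2)) := by
    have : (a + 1 + 1) * (a + 1 + 1) = (a + 2) * (a + 2) := by ring
    omega
  have e1 : a * (4 * a + a) + a * (2 * a + a + 2) + (3 * a + a + 1) = 8 * (a * a) + 6 * a + 1 := by
    ring
  have e2 : 8 * ((a + 1) * (a + 1)) = 8 * (a * a) + 16 * a + 8 := by ring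
  refine ⟨a, N - (8 * (a * a) + 6 * a + 1), by omega, by rw [e1]; omega, fun m hm => ?_⟩
  obtain ⟨ℓ, hℓ⟩ : ∃ ℓ, ℓ = Nat.log 2 (a - 1) := ⟨_, rfl⟩
  have h1 : 2 ^ ℓ ≤ a - 1 := by rw [hℓ]; exact Nat.pow_log_le_self 2 (by omega)
  have h2 : a - 1 < 2 ^ (ℓ + 1) := by rw [hℓ]; exact Nat.lt_pow_succ_log_self (by norm_num) _
  have h3 : 7 ≤ ℓ := by
    by_contra h
    push Not at h
    have : 2 ^ (ℓ + 1) ≤ 2 ^ 7 := Nat.pow_le_pow_right (by norm_num) (by omega)
    omega
  have h4 : ℓ * (a * (a * (a * a))) ≤ 3 * m := by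
    have h5 : 2 ^ (ℓ * (a * (a * (a * a)))) ≤ 2 ^ (3 * m) := by
      rw [pow_mul]
      exact (Nat.pow_le_pow_left h1 _).trans hm
    exact (Nat.pow_le_pow_iff_right (by norm_num)).mp h5
  have h6 : a + 2 ≤ 2 ^ (ℓ + 2) := by
    have e : 2 ^ (ℓ + 2) = 2 * 2 ^ (ℓ + 1) := by rw [pow_succ]; ring
    have : 2 ^ 2 ≤ 2 ^ (ℓ + 1) := Nat.pow_le_pow_right (by norm_num) (by omega)
    omega
  have h7 : N < 2 ^ (2 * ℓ + 7) := by
    calc N < 8 * ((a + 2) * (a + 2)) := hN2
      _ ≤ 8 * (2 ^ (ℓ + 2) * 2 ^ (ℓ + 2)) := Nat.mul_le_mul_left _ (Nat.mul_le_mul h6 h6)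
      _ = 2 ^ (2 * ℓ + 7) := by
          rw [show (8 : ℕ) = 2 ^ 3 by norm_num, ← pow_add, ← pow_add]
          congr 1
          ring
  have h8 : Nat.log 2 N ≤ 3 * ℓ := by
    have := Nat.log_lt_of_lt_pow (by omega : N ≠ 0) h7
    omega
  have h9 : 5 * ((a + 2) * (a + 2)) ≤ 7 * (a * a) := by
    have : 180 * a ≤ a * a := Nat.mul_le_mul_right _ (by omega)
    have e : (a + 2) * (a + 2) = a * a + 4 * a + 4 := by ring
    omega
  have h10 : N ^ 2 ≤ 128 * (a * (a * (a * a))) := by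
    have h11 : 5 * N ≤ 8 * (7 * (a * a)) := by omega
    have h12 : (5 * N) * (5 * N) ≤ (8 * (7 * (a * a))) * (8 * (7 * (a * a))) :=
      Nat.mul_le_mul h11 h11
    have e3 : (5 * N) * (5 * N) = 25 * N ^ 2 := by ring
    have e4 : (8 * (7 * (a * a))) * (8 * (7 * (a * a))) = 3136 * (a * (a * (a * a))) := by ring
    rw [e3, e4] at h12
    omega
  calc N ^ 2 * Nat.log 2 N ≤ (128 * (a * (a * (a * a)))) * (3 * ℓ) := Nat.mul_le_mul h10 h8
    _ = 384 * (ℓ * (a * (a * (a * a)))) := by ring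
    _ ≤ 384 * (3 * m) := Nat.mul_le_mul_left _ h4
    _ = 1152 * m := by ring

/-- Exact complexity. -/
theorem per_lower (K : Type*) [Field K] [CharZero K] {N : ℕ} (hN : 2 ^ 18 ≤ N)
    (s : ℕ) (M : Finset ℕ) (g : ℕ → MvPolynomial (Fin N × Fin N) K) (hg : NSLP s M g)
    (hf : ∃ i < s, perN K N = g i) : N ^ 2 * Nat.log 2 N ≤ 1152 * M.card := by
  obtain ⟨a, p, ha, hNa, h⟩ := numbers hN
  refine h _ ?_
  have hg' := hg.map (algebraMap K (AlgebraicClosure K))
  have hf' : ∃ i < s, perN (AlgebraicClosure K) N =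
      (fun i => MvPolynomial.map (algebraMap K (AlgebraicClosure K)) (g i)) i := by
    obtain ⟨i, hi, hfi⟩ := hf
    refine ⟨i, hi, ?_⟩
    beta_reduce
    rw [← hfi, map_perN]
  exact Pool.Agent.H546R2.SM.main_ineq (AlgebraicClosure K) ha N hNa s M _ hg' hf'

open Pool.Agent.H632R2.Border in
/-- Approximative complexity. -/
theorem per_lower_border (k : Type*) [Field k] [CharZero k] {N : ℕ} (hN : 2 ^ 18 ≤ N)
    (s : ℕ) (M : Finset ℕ) (g : ℕ → MvPolynomial (Fin N × Fin N) (RatFunc k))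
    (F : MvPolynomial (Fin N × Fin N) (RatFunc k)) (hg : NSLP s M g) (hF : ∃ i < s, F = g i)
    (hv : ∀ d, (coeff d F).denom.eval 0 ≠ 0 ∧
      (coeff d F).eval (RingHom.id k) 0 = coeff d (perN k N)) :
    N ^ 2 * Nat.log 2 N ≤ 1152 * M.card := by
  obtain ⟨a, p, ha, hNa, h⟩ := numbers hN
  refine h _ ?_
  set Ω := AlgebraicClosure k with hΩ
  set ρ := rmap (algebraMap k Ω) with hρ
  have hg' := hg.map ρ
  -- the lift
  have hcoef : ∀ d, coeff d (MvPolynomial.map ρ F) ∈ O0 Ω := by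
    intro d
    rw [coeff_map]
    exact rmap_mem _ (hv d).1
  have hrange : MvPolynomial.map ρ F ∈
      (MvPolynomial.map (σ := Fin N × Fin N) (O0 Ω).subtype).range := by
    rw [RingHom.mem_range]
    change _ ∈ Set.range _
    rw [mem_range_map_iff_coeffs_subset]
    intro x hx
    rw [Finset.mem_coe, mem_coeffs_iff] at hx
    obtain ⟨d, _, rfl⟩ := hx
    exact ⟨⟨_, hcoef d⟩, rfl⟩
  obtain ⟨G, hG⟩ := hrange
  have hφ : MvPolynomial.map (φ0 Ω) G = perN Ω N := by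
    rw [← map_perN (algebraMap k Ω) N]
    ext d
    rw [coeff_map, coeff_map, ← (hv d).2, ← rmap_eval (algebraMap k Ω) (hv d).1]
    congr 1
    apply Subtype.ext
    have h1 := congrArg (coeff d) hG
    rw [coeff_map, coeff_map] at h1
    exact h1
  have hf' : ∃ i < s, MvPolynomial.map (O0 Ω).subtype G =
      (fun i => MvPolynomial.map ρ (g i)) i := by
    obtain ⟨i, hi, hfi⟩ := hF
    refine ⟨i, hi, ?_⟩
    beta_reduce
    rw [← hfi]
    exact hG
  exact main_ineq_border Ω (O0 Ω) (φ0 Ω) (ψ0 Ω) (φψ Ω) ha N hNa s M _ hg' G hf' hφ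

end Pool.Agent.H213R3.PB
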