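import Pool.Agent.H213R3.PerBorder

/-!
# Arithmetic circuits with gates of arbitrary fan-in
-/

set_option autoImplicit false

open MvPolynomial Finset

namespace Pool.Agent.H213R3.PC

open Pool.Agent.H546R2.SL

/-- The label of node number `i` of an arithmetic circuit over `K` in the variables `σ`; the nodes
are numbered such that the in-neighbours of node `i` have numbers less than `i`. The label is a
variable, a constant, a linear gate (a linear combination of its in-neighbours), or a product gate
(the product of its in-neighbours, listed with multiplicity). -/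
inductive Node (K σ : Type*) (i : ℕ)
  | var (v : σ) : Node K σ i
  | const (c : K) : Node K σ i
  | lin (L : List (K × Fin i)) : Node K σ i
  | mul (L : List (Fin i)) : Node K σ i

/-- The polynomial computed at a node, where `g j` is the polynomial computed at node `j`. -/
noncomputable def Node.value {K σ : Type*} [CommSemiring K] {i : ℕ} (g : ℕ → MvPolynomial σ K) :
    Node K σ i → MvPolynomial σ K
  | .var v => X v
  | .const c => C c
  | .lin L => (L.map fun p => C p.1 * g p.2.1).sum
  | .mul L => (L.map fun j => g j.1).prod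

/-- The cost of a node: the fan-in minus one for a product gate, zero for all other nodes. -/
def Node.cost {K σ : Type*} {i : ℕ} : Node K σ i → ℕ
  | .mul L => L.length - 1
  | _ => 0

variable {K : Type*} [Field K] {σ : Type*}

/-- All polynomials in `A` are computed with at most `m` products. -/
def Av (A : Set (MvPolynomial σ K)) (m : ℕ) : Prop :=
  ∃ (s : ℕ) (M : Finset ℕ) (g : ℕ → MvPolynomial σ K), NSLP s M g ∧ M ⊆ range s ∧ M.card ≤ m ∧
    ∀ a ∈ A, ∃ i < s, a = g i

theorem nslp_update {s : ℕ} {M M' : Finset ℕ} {g : ℕ → MvPolynomial σ K} (hg : NSLP s M g)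
    (hM : ∀ i < s, i ∈ M' ↔ i ∈ M) (p : MvPolynomial σ K) : NSLP s M' (Function.update g s p) := by
  intro i hi
  have himg : Function.update g s p '' {j | j < i} = g '' {j | j < i} := by
    apply Set.image_congr
    intro j hj
    have : j < i := hj
    exact Function.update_of_ne (by omega) _ _
  rw [himg, Function.update_of_ne (by omega : i ≠ s)]
  rcases hg i hi with ⟨h1, h2⟩ | ⟨h1, a, ha, b, hb, hab⟩
  · exact Or.inl ⟨fun h => h1 ((hM i hi).1 h), h2⟩
  · refine Or.inr ⟨(hM i hi).2 h1, a, ha, b, hb, ?_⟩
    rw [Function.update_of_ne (by omega), Function.update_of_ne (by omega)]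
    exact hab

theorem Av.lin {A : Set (MvPolynomial σ K)} {m : ℕ} (h : Av A m) {p : MvPolynomial σ K}
    (hp : p ∈ Submodule.span K ({1} ∪ Set.range (X : σ → MvPolynomial σ K) ∪ A)) :
    Av (A ∪ {p}) m := by
  obtain ⟨s, M, g, h1, h2, h3, h4⟩ := h
  have hsM : s ∉ M := fun h => by
    have := Finset.mem_range.1 (h2 h)
    omega
  refine ⟨s + 1, M, Function.update g s p, ?_, h2.trans (Finset.range_mono (by omega)), h3, ?_⟩
  · intro i hi
    rcases Nat.lt_succ_iff_lt_or_eq.1 hi with hi | rfl
    · exact nslp_update h1 (fun _ _ => Iff.rfl) p i hi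
    · refine Or.inl ⟨hsM, ?_⟩
      rw [Function.update_self]
      refine Submodule.span_mono ?_ hp
      refine Set.union_subset_union_right _ fun a ha => ?_
      obtain ⟨j, hj, rfl⟩ := h4 a ha
      exact ⟨j, hj, Function.update_of_ne (by omega) _ _⟩
  · rintro a (ha | ha)
    · obtain ⟨j, hj, rfl⟩ := h4 a ha
      exact ⟨j, by omega, (Function.update_of_ne (by omega) _ _).symm⟩
    · rw [Set.mem_singleton_iff] at ha
      subst ha
      exact ⟨s, by omega, by rw [Function.update_self]⟩

theorem Av.mul {A : Set (MvPolynomial σ K)} {m : ℕ} (h : Av A m) {p q : MvPolynomial σ K}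
    (hp : p ∈ A) (hq : q ∈ A) : Av (A ∪ {p * q}) (m + 1) := by
  obtain ⟨s, M, g, h1, h2, h3, h4⟩ := h
  have hsM : s ∉ M := fun h => by
    have := Finset.mem_range.1 (h2 h)
    omega
  obtain ⟨a, ha, rfl⟩ := h4 p hp
  obtain ⟨b, hb, rfl⟩ := h4 q hq
  refine ⟨s + 1, insert s M, Function.update g s (g a * g b), ?_, ?_, ?_, ?_⟩
  · intro i hi
    rcases Nat.lt_succ_iff_lt_or_eq.1 hi with hi | rfl
    · refine nslp_update h1 (fun j hj => ?_) _ i hi
      rw [Finset.mem_insert]
      exact ⟨fun h => h.resolve_left (by omega), Or.inr⟩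
    · refine Or.inr ⟨Finset.mem_insert_self _ _, a, ha, b, hb, ?_⟩
      rw [Function.update_self, Function.update_of_ne (by omega), Function.update_of_ne (by omega)]
  · intro i hi
    rcases Finset.mem_insert.1 hi with rfl | hi
    · exact Finset.mem_range.2 (by omega)
    · have := Finset.mem_range.1 (h2 hi)
      exact Finset.mem_range.2 (by omega)
  · rw [Finset.card_insert_of_notMem hsM]
    omega
  · rintro c (hc | hc)
    · obtain ⟨j, hj, rfl⟩ := h4 c hc
      exact ⟨j, by omega, (Function.update_of_ne (by omega) _ _).symm⟩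
    · rw [Set.mem_singleton_iff] at hc
      subst hc
      exact ⟨s, by omega, by rw [Function.update_self]⟩

theorem Av.mono {A B : Set (MvPolynomial σ K)} {m m' : ℕ} (h : Av A m) (hB : B ⊆ A)
    (hm : m ≤ m') : Av B m' := by
  obtain ⟨s, M, g, h1, h2, h3, h4⟩ := h
  exact ⟨s, M, g, h1, h2, h3.trans hm, fun a ha => h4 a (hB ha)⟩

theorem Av.list {A : Set (MvPolynomial σ K)} : ∀ (L : List (MvPolynomial σ K))
    (a : MvPolynomial σ K) {m : ℕ}, Av A m → a ∈ A → (∀ b ∈ L, b ∈ A) →
    Av (A ∪ {a * L.prod}) (m + L.length) := by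
  intro L
  induction L with
  | nil =>
    intro a m h ha _
    refine h.mono ?_ (by simp)
    refine Set.union_subset subset_rfl ?_
    simpa using ha
  | cons b L ih =>
    intro a m h ha hL
    have h1 := ih b h (hL b (by simp)) fun c hc => hL c (by simp [hc])
    have h2 := h1.mul (p := a) (q := b * L.prod) (Or.inl ha) (Or.inr rfl)
    refine h2.mono ?_ (by simp only [List.length_cons]; omega)
    rw [List.prod_cons]
    exact Set.union_subset_union_left _ Set.subset_union_left

theorem Av.circuit (node : (i : ℕ) → Node K σ i) (g : ℕ → MvPolynomial σ K) : ∀ s : ℕ,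
    (∀ i < s, g i = (node i).value g) → Av (g '' {j | j < s}) (∑ i ∈ range s, (node i).cost) := by
  intro s
  induction s with
  | zero =>
    intro _
    refine ⟨0, ∅, fun _ => 0, fun i hi => absurd hi (Nat.not_lt_zero i), by simp, by simp, ?_⟩
    rintro a ⟨j, hj, _⟩
    exact absurd hj (Nat.not_lt_zero j)
  | succ s ih =>
    intro h
    have h1 := ih fun i hi => h i (by omega)
    have h2 := h s (by omega)
    have hset : g '' {j | j < s + 1} ⊆ g '' {j | j < s} ∪ {g s} := by
      rintro _ ⟨j, hj, rfl⟩
      rcases Nat.lt_succ_iff_lt_or_eq.1 (show j < s + 1 from hj) with hj | rfl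
      · exact Or.inl ⟨j, hj, rfl⟩
      · exact Or.inr rfl
    rw [Finset.sum_range_succ]
    cases hn : node s with
    | var v =>
      rw [hn] at h2
      refine (h1.lin (p := g s) ?_).mono hset (by simp [Node.cost])
      rw [h2]
      exact Submodule.subset_span (Or.inl (Or.inr ⟨v, rfl⟩))
    | const c =>
      rw [hn] at h2
      refine (h1.lin (p := g s) ?_).mono hset (by simp [Node.cost])
      rw [h2]
      have e : (C c : MvPolynomial σ K) = c • 1 := by rw [smul_eq_C_mul, mul_one]
      show C c ∈ _
      rw [e]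
      exact Submodule.smul_mem _ _ (Submodule.subset_span (Or.inl (Or.inl rfl)))
    | lin L =>
      rw [hn] at h2
      refine (h1.lin (p := g s) ?_).mono hset (by simp [Node.cost])
      rw [h2]
      show (L.map fun p => C p.1 * g p.2.1).sum ∈ _
      refine list_sum_mem ?_
      intro q hq
      rw [List.mem_map] at hq
      obtain ⟨p, _, rfl⟩ := hq
      rw [← smul_eq_C_mul]
      exact Submodule.smul_mem _ _ (Submodule.subset_span (Or.inr ⟨p.2.1, p.2.2, rfl⟩))
    | mul L =>
      rw [hn] at h2
      cases L with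
      | nil =>
        refine (h1.lin (p := g s) ?_).mono hset (by simp [Node.cost])
        rw [h2]
        exact Submodule.subset_span (Or.inl (Or.inl (by simp [Node.value])))
      | cons a L =>
        have h3 := h1.list (L.map fun j => g j.1) (g a.1) ⟨a.1, a.2, rfl⟩ (by
          intro b hb
          rw [List.mem_map] at hb
          obtain ⟨j, _, rfl⟩ := hb
          exact ⟨j.1, j.2, rfl⟩)
        have e : g a.1 * (L.map fun j => g j.1).prod = g s := by
          rw [h2]
          simp [Node.value]
        rw [e] at h3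
        refine h3.mono hset ?_
        simp [Node.cost]

theorem per_circuit {K : Type*} [Field K] [CharZero K] {N : ℕ} (hN : 2 ^ 18 ≤ N) (s : ℕ)
    (node : (i : ℕ) → Node K (Fin N × Fin N) i) (g : ℕ → MvPolynomial (Fin N × Fin N) K)
    (hg : ∀ i < s, g i = (node i).value g) (hper : ∃ i < s, g i = perN K N) :
    N ^ 2 * Nat.log 2 N ≤ 1152 * ∑ i ∈ range s, (node i).cost := by
  obtain ⟨s', M, g', h1, -, h3, h4⟩ := Av.circuit node g s hg
  obtain ⟨i, hi, hgi⟩ := hper
  obtain ⟨j, hj, hgj⟩ := h4 (g i) ⟨i, hi, rfl⟩
  refine (PB.per_lower K hN s' M g' h1 ⟨j, hj, ?_⟩).trans (Nat.mul_le_mul_left _ h3)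
  rw [← hgi, hgj]

end Pool.Agent.H213R3.PC
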